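import Pool.Agent.Lib.MP_b5021c_nt.IfaceG

/-!
# Board b5, row FDC (helper29): the factorisation of the closed element
-/

namespace Pool.Agent.B5.H29

open Pool.Agent.B5

section

variable {O : Type} [CommRing O] [IsDomain O] [IsPrincipalIdealRing O] [Coef O]
  {L : Type} [AddCommGroup L] [Module.Free ℤ L] [Module.Finite ℤ L]

theorem cst_coeff_zero (c : RO O) : (cst c : AO O L).coeff 0 = c := by
  simp [cst]

theorem pos_cst (lam : L →+ ℤ) (c : RO O) : Pos lam (cst c : AO O L) := by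
  intro a ha ha0
  exfalso
  rw [Finsupp.mem_support_iff] at ha
  apply ha
  simp [cst, Finsupp.single_apply, Ne.symm ha0]

theorem one_eq_cst : (1 : AO O L) = cst 1 := rfl

/-- Products over finite sets: constant coefficient and positivity. -/
theorem prod_coeff_zero (h4 : Coeff0S) {n : ℕ} (G : Fin n → AO O L) (lam : L →+ ℤ)
    (hG : ∀ i, Pos lam (G i)) (s : Finset (Fin n)) :
    (∏ i ∈ s, G i).coeff 0 = ∏ i ∈ s, (G i).coeff 0 ∧ Pos lam (∏ i ∈ s, G i) := by
  classical
  induction s using Finset.induction_on with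
  | empty =>
    refine ⟨?_, ?_⟩
    · simp only [Finset.prod_empty]; rw [one_eq_cst, cst_coeff_zero]
    · simp only [Finset.prod_empty]; rw [one_eq_cst]; exact pos_cst lam 1
  | insert a s ha ih =>
    obtain ⟨e, p⟩ := h4 O L (G a) (∏ i ∈ s, G i) lam (hG a) ih.2
    refine ⟨?_, ?_⟩
    · rw [Finset.prod_insert ha, Finset.prod_insert ha, e, ih.1]
    · rw [Finset.prod_insert ha]; exact p

end

theorem fdc (h1 : G0S) (h2 : FactS) (h3 : WWfS) (h4 : Coeff0S) : FDS := by
  classical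
  intro O _ _ _ _ P L _ _ _ _ _ phi D S i0 eta h hcc
  obtain ⟨hst, hun, hc0, hww, _, _⟩ := h1 O P L phi D S i0 eta h hcc
  obtain ⟨c, n, G, hc, heq, hG⟩ := h2 O _ _ hst hun
  obtain ⟨hV0, lam, hpos, _⟩ := id hst
  have hfull : ∀ i, FullAt lam (G i) := fun i => ((hG i).2.2.2.2 lam).2 hpos
  have hGpos : ∀ i, Pos lam (G i) := fun i => (hfull i).2.1
  have hG0 : ∀ i, (G i).coeff 0 ≠ 0 := fun i => (hfull i).1
  -- the product of a constant and some factors
  have key : ∀ s : Finset (Fin n), (cst c * ∏ i ∈ s, G i).coeff 0 = c * ∏ i ∈ s, (G i).coeff 0 := by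
    intro s
    obtain ⟨e1, p1⟩ := prod_coeff_zero h4 G lam hGpos s
    rw [(h4 O _ (cst c) (∏ i ∈ s, G i) lam (pos_cst lam c) p1).1, cst_coeff_zero, e1]
  refine ⟨c, n, G, ⟨hcc, hc, heq, fun i => (hG i).1, fun i => (hG i).2.1, fun i => (hG i).2.2.1,
    fun i => (hG i).2.2.2.1, fun i lam => ((hG i).2.2.2.2 lam).1,
    fun i lam => ((hG i).2.2.2.2 lam).2, ?_, ?_⟩⟩
  · intro i
    have e : cl (co phi i0) S h eta D = G i * (cst c * ∏ j ∈ Finset.univ.erase i, G j) := by
      rw [heq, ← Finset.mul_prod_erase Finset.univ G (Finset.mem_univ i)]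
      ring
    have hH0 : (cst c * ∏ j ∈ Finset.univ.erase i, G j).coeff 0 ≠ 0 := by
      rw [key]
      exact mul_ne_zero hc (Finset.prod_ne_zero_iff.mpr fun j _ => hG0 j)
    rw [e] at hww
    exact (h3 O P _ (phK phi (co phi i0)) (II phi S i0) (OO phi S) (G i) _ hww (hG0 i) hH0).1
  · rw [← hc0, heq, key]

end Pool.Agent.B5.H29
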