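import Pool.Agent.Lib.MP_b5021c_nt.IfaceJ

/-!
# Board b5, row G4C (helper29): big factors have rank at most the bound of their class
-/

namespace Pool.Agent.B5.H29

open Pool.Agent.B5

/-- The reduction of a factor to the class `WD` on the saturated span of its support. -/
theorem factor_wd (hR : ResWDS) (hS : ResStS)
    (O : Type) [CommRing O] [IsDomain O] [IsPrincipalIdealRing O] [Coef O]
    (P L : Type) [Fintype P] [DecidableEq P] [AddCommGroup L] [Module.Free ℤ L]
    [Module.Finite ℤ L] (phi : L →+ (P → ℤ)) (D : AO O L) (S : L) (i0 : P) (eta : (RO O)ˣ)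
    (h : co phi i0 S = 1) (c : RO O) (n : ℕ) (G : Fin n → AO O (Ker (co phi i0)))
    (hF : FD phi D S i0 eta h c n G) (i : Fin n) :
    ∃ K : Submodule ℤ (Ker (co phi i0)), Module.finrank ℤ K = rk (supp (G i)) ∧
      WD ((phK phi (co phi i0)).comp (incl K)) (II phi S i0) (OO phi S) (res K (G i)) := by
  have hG0 : G i ≠ 0 := (hF.irr i).ne_zero
  obtain ⟨K, hsat, hsup, hfr, hirr, hun, hrk⟩ := hR O (Ker (co phi i0)) (G i) hG0
  refine ⟨K, hfr, ⟨?_, ?_, ?_, ?_, hun (hF.un i), hirr (hF.irr i), ?_⟩⟩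
  · intro a b hab
    apply Subtype.ext
    apply Subtype.ext
    exact hF.cc.dd.inj hab
  · rw [Finset.disjoint_left]
    intro j hj1 hj2
    simp only [II, OO, Finset.mem_filter, Finset.mem_univ, true_and] at hj1 hj2
    rw [hj2] at hj1
    exact zero_ne_one hj1.1
  · intro a ha
    exact hF.ww i (a : Ker (co phi i0)) ha
  · exact (hS O (Ker (co phi i0)) (G i) K hsat hsup).1 (hF.st i)
  · rw [hrk, hfr]

theorem g4c (hL : L2S) (hR : ResWDS) (hS : ResStS) : G4S := by
  intro O _ _ _ _ P L _ _ _ _ _ phi D S i0 eta h c n G hF i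
  obtain ⟨K, hfr, hW⟩ := factor_wd hR hS O P L phi D S i0 eta h c n G hF i
  refine ⟨?_, ?_⟩
  · intro N B hV hB hBd
    by_cases h2 : 2 ≤ Module.finrank ℤ K
    · obtain ⟨P', L', i1, i2, i3, i4, i5, phi', G', hD, hr, hc⟩ :=
        hL O P K ((phK phi (co phi i0)).comp (incl K)) (II phi S i0) (OO phi S) (res K (G i)) hW h2
          (Or.inl ⟨N, hV⟩)
      obtain ⟨N', hN', hV'⟩ := hc.1 N hV
      have := hBd N' hN' P' L' phi' G' hD hV'
      rw [hr, hfr] at this
      exact this
    · rw [← hfr]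
      have h3 : Module.finrank ℤ K ≤ 1 := by omega
      exact le_trans (by exact_mod_cast h3) hB
  · intro θ B hP hB hBd
    by_cases h2 : 2 ≤ Module.finrank ℤ K
    · obtain ⟨P', L', i1, i2, i3, i4, i5, phi', G', hD, hr, hc⟩ :=
        hL O P K ((phK phi (co phi i0)).comp (incl K)) (II phi S i0) (OO phi S) (res K (G i)) hW h2
          (Or.inr ⟨θ, hP⟩)
      have hP' := hc.2 θ hP
      have := hBd P' L' phi' G' hD hP'
      rw [hr, hfr] at this
      exact this
    · rw [← hfr]
      have h3 : Module.finrank ℤ K ≤ 1 := by omega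
      exact le_trans (by exact_mod_cast h3) hB

end Pool.Agent.B5.H29
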